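import Pool.Agent.T9h70.Bic.Main

set_option autoImplicit false

/-!
# The Gyárfás–Sumner conjecture and colourings of the non-edges

Theorem. Let `F` be a forest and let `Cl` be a class of `F`-free graphs. Then `Cl` is `χ`-bounded if and
only if the non-edges of every graph `G` in `Cl` can be coloured with boundedly many colours, so that no
induced `K_{h,h}` has both of its sides monochromatic in the same colour, for a bounded `h`. Here
bounded means: bounded by a function of `ω(G)`. It is equivalent to ask this for `h = 2`, i.e. so that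
the two diagonals of every induced 4-cycle get different colours.

In particular for all `k` and `h` the class of the `F`-free graphs `G` whose non-edges can be coloured
with `k` colours, so that no induced `K_{h,h}` of `G` has both of its sides monochromatic in the same
colour, is `χ`-bounded. For `k = 1` these are the graphs without induced `K_{h,h}`, and this is Rödl's
theorem. If `G` is the intersection of `k` graphs `C_1, ..., C_k` without induced `K_{h,h}`, then every
non-edge `x y` of `G` can be coloured with an `i` such that `x y` is a non-edge of `C_i`; so the theorem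
contains the `χ`-boundedness of the `F`-free graphs of bounded chordality (`h = 2`).

A proper colouring of `G` gives such a colouring of the non-edges with `h = 2`: give `x y` the colour of
`x` or of `y`. So the Gyárfás–Sumner conjecture for `F` is equivalent to the statement that for all
`F`-free graphs the non-edges have such a colouring, where the number of colours is a function of `ω(G)`.

Proof of the bound for given `k` and `h`. Let `C_i` be the graph in which `x`, `y` are not adjacent if
`x y` is a non-edge of `G` of colour `i`; so `G` is the intersection of the `C_i`. Let `D` be an acyclic orientation of `G`. We may assume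
that `F` is a tree with `m + 1` vertices, rooted. Let `r = m + 1`. A window is an induced directed path
with `r + 1` vertices; `x z` is the window which is obtained from the window `x` by deleting the first
vertex and adding `z` at the end.

1. Let `t` be a colour. All windows have level `0`; a window `x` has level `j + 1` if there are `N`
   vertices `z`, pairwise not adjacent in `C_t`, such that `x z` is a window of level `j`. If a window has
   level `m`, then `G` contains `F`: choose the vertices of `F` at random, the children of a node of `F`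
   among the `N` vertices of its window. The vertices of a path from the root are not adjacent in `G`
   unless they are consecutive, because of the windows. If neither of two nodes is an ancestor of the
   other then the two vertices are adjacent in `G` with small probability, by the theorem of Kővári, Sós
   and Turán, because `N` is large and there is no `K_{h,h}` with both sides stable in `C_t`.
2. For a window `x` let `S(x)` be the set of the `z` such that `x z` is a window whose levels, for all
   colours `t`, are at least those of `x`. By Ramsey's theorem and 1 its size is bounded in terms of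
   `ω(G)` if `G` is `F`-free.
3. If `χ(G)` is large then there is a directed path `v_0 → v_1 → ... → v_n` in `D` such that adjacency in
   `G` and in the `C_i`, and the levels of windows consisting of vertices of the path, are invariant under
   shifts, and no `v_c` is in `S(x)` for a window `x` which consists of earlier vertices of the path. This
   follows by iterated line digraphs: taking the line digraph at most takes the logarithm of the
   chromatic number, and the paths which hit the small sets can be removed at the cost of a bounded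
   factor; at the end two consecutive paths have the same pattern.
4. Let `S` be the set of the `l` such that `v_a` and `v_(a + l)` are adjacent in `G`, so `1 ∈ S`. Suppose
   that there are `l_0, ..., l_r` in `S` whose sums over `2, ..., r` consecutive indices are not in `S`.
   Then the vertices `v_0, v_(l_0), v_(l_0 + l_1), ...` form two windows `x` and `x z`, so `x z` has a
   smaller level than `x` for some colour; in particular the levels are different.
5. If `l ∈ S` and `j l ∉ S` for `j = 2, ..., r`, this is applied to the constant sequence `l`, where the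
   two windows are shifts of each other, a contradiction. So some `j l` is in `S`, and it follows that
   `S` has many elements. By Ramsey's theorem there is a large subset `Q` of `S` such that for `j ≤ r` all
   sums of `j` different elements of `Q` behave in the same way with respect to `S`, and so do the
   differences with respect to the `C_i`, and the levels of the windows with increasing gaps from `Q`.
   If for `j = 2, ..., r` the sums of `j` elements are not in `S`, this contradicts 4, for
   `l_0 < ... < l_r` in `Q`. So for some `j` the sums of `j` elements of `Q` are in `S`. As there is no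
   clique of size `ω(G) + 1`, for some `i` the differences are not adjacent in `C_i`. Now
   `v_(c - e - a)`, `a ∈ A`, and `v_(c + b)`, `b ∈ B`, are the sides of a `K_{h,h}` of `G`, stable in
   `C_i`, where `e` is the sum of `j - 2` other elements of `Q`; a contradiction.
-/

namespace Pool.Agent.Results.MP_763321_co.ColouringNonEdges

/-- The non-edges of `G` have a colouring with `k` colours such that no induced `K_{h,h}` of `G` has
both of its sides `A`, `B` monochromatic in the same colour `i`. -/
def SideColouring {V : Type} (k h : ℕ) (G : SimpleGraph V) : Prop :=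
  ∃ c : Sym2 V → Fin k, ∀ (i : Fin k) (A B : Finset V), A.card = h → B.card = h →
    (∀ x ∈ A, ∀ y ∈ A, x ≠ y → ¬ G.Adj x y ∧ c s(x, y) = i) →
    (∀ x ∈ B, ∀ y ∈ B, x ≠ y → ¬ G.Adj x y ∧ c s(x, y) = i) →
    ∃ x ∈ A, ∃ y ∈ B, ¬ G.Adj x y

/-- The intersection of `k` graphs without induced `K_{h,h}` has such a colouring: a non-edge gets as
colour an `i` such that it is a non-edge of the `i`-th graph. -/
theorem sideColouring_of_inter {V : Type} {k h : ℕ} (hk : 0 < k) (G : SimpleGraph V)
    (C : Fin k → SimpleGraph V)
    (hC : ∀ i, ¬ (completeBipartiteGraph (Fin h) (Fin h)).IsIndContained (C i))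
    (hG : ∀ x y, x ≠ y → (G.Adj x y ↔ ∀ i, (C i).Adj x y)) : SideColouring k h G := by
  classical
  have hex : ∀ e : Sym2 V, ∃ i : Fin k, ∀ x y, e = s(x, y) → x ≠ y → ¬ G.Adj x y →
      ¬ (C i).Adj x y := by
    intro e
    induction e using Sym2.ind with
    | _ x y =>
      by_cases hxy : x ≠ y ∧ ¬ G.Adj x y
      · have h1 := hxy.2
        rw [hG x y hxy.1] at h1
        push Not at h1
        obtain ⟨i, hi⟩ := h1
        refine ⟨i, fun a b hab _ _ h2 => hi ?_⟩
        rcases Sym2.eq_iff.1 hab with ⟨rfl, rfl⟩ | ⟨rfl, rfl⟩
        · exact h2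
        · exact h2.symm
      · refine ⟨⟨0, hk⟩, fun a b hab h1 h2 => absurd ?_ hxy⟩
        rcases Sym2.eq_iff.1 hab with ⟨rfl, rfl⟩ | ⟨rfl, rfl⟩
        · exact ⟨h1, h2⟩
        · exact ⟨h1.symm, fun h3 => h2 h3.symm⟩
  choose c hc using hex
  refine ⟨c, fun i A B hA hB hA' hB' => ?_⟩
  by_contra hcon
  push Not at hcon
  have key : ∀ S : Finset V, (∀ x ∈ S, ∀ y ∈ S, x ≠ y → ¬ G.Adj x y ∧ c s(x, y) = i) →
      ∀ x ∈ S, ∀ y ∈ S, ¬ (C i).Adj x y := by
    intro S hS x hx y hy hadj
    obtain ⟨h1, h2⟩ := hS x hx y hy hadj.ne
    exact hc s(x, y) x y rfl hadj.ne h1 (h2 ▸ hadj)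
  let eA := A.equivFinOfCardEq hA
  let eB := B.equivFinOfCardEq hB
  have cross : ∀ x ∈ A, ∀ y ∈ B, (C i).Adj x y := fun x hx y hy =>
    (hG x y (hcon x hx y hy).ne).1 (hcon x hx y hy) i
  refine hC i ⟨⟨⟨Sum.elim (fun j => (eA.symm j : V)) (fun j => (eB.symm j : V)), ?_⟩, ?_⟩⟩
  · rintro (a | a) (b | b) hab
    · exact congrArg Sum.inl (eA.symm.injective (Subtype.ext hab))
    · exact absurd hab (cross _ (eA.symm a).2 _ (eB.symm b).2).ne
    · exact absurd (Eq.symm hab) (cross _ (eA.symm b).2 _ (eB.symm a).2).ne
    · exact congrArg Sum.inr (eB.symm.injective (Subtype.ext hab))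
  · rintro (a | a) (b | b)
    · simp only [completeBipartiteGraph_adj, Sum.isLeft_inl, Sum.isRight_inl, Bool.false_eq_true,
        and_false, false_and, or_self, iff_false]
      exact key A hA' _ (eA.symm a).2 _ (eA.symm b).2
    · simp only [completeBipartiteGraph_adj, Sum.isLeft_inl, Sum.isRight_inr, and_self, true_or,
        iff_true]
      exact cross _ (eA.symm a).2 _ (eB.symm b).2
    · simp only [completeBipartiteGraph_adj, Sum.isLeft_inl, Sum.isRight_inr, and_self, or_true,
        iff_true]
      exact (cross _ (eA.symm b).2 _ (eB.symm a).2).symm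
    · simp only [completeBipartiteGraph_adj, Sum.isLeft_inr, Sum.isRight_inr, Bool.false_eq_true,
        and_false, false_and, or_self, iff_false]
      exact key B hB' _ (eB.symm a).2 _ (eB.symm b).2

/-- The intersection of two graphs with such colourings has such a colouring. -/
theorem sideColouring_inf {V : Type} {k l h : ℕ} {G H : SimpleGraph V} (hG : SideColouring k h G)
    (hH : SideColouring l h H) : SideColouring (k + l) h (G ⊓ H) := by
  classical
  obtain ⟨c, hc⟩ := hG
  obtain ⟨d, hd⟩ := hH
  refine ⟨fun e => finSumFinEquiv (if e ∈ G.edgeSet then Sum.inr (d e) else Sum.inl (c e)),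
    fun i A B hA hB hA' hB' => ?_⟩
  by_contra hcon
  push Not at hcon
  obtain ⟨j, rfl⟩ := finSumFinEquiv.surjective i
  rcases j with j | j
  · have key : ∀ S : Finset V, (∀ x ∈ S, ∀ y ∈ S, x ≠ y → ¬ (G ⊓ H).Adj x y ∧
        finSumFinEquiv (if s(x, y) ∈ G.edgeSet then Sum.inr (d s(x, y)) else Sum.inl (c s(x, y))) =
          finSumFinEquiv (Sum.inl j)) →
        ∀ x ∈ S, ∀ y ∈ S, x ≠ y → ¬ G.Adj x y ∧ c s(x, y) = j := by
      intro S hS x hx y hy hxy
      have h1 := finSumFinEquiv.injective (hS x hx y hy hxy).2
      split_ifs at h1 with h2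
      exact ⟨h2, Sum.inl.inj h1⟩
    obtain ⟨x, hx, y, hy, hxy⟩ := hc j A B hA hB (key A hA') (key B hB')
    exact hxy (hcon x hx y hy).1
  · have key : ∀ S : Finset V, (∀ x ∈ S, ∀ y ∈ S, x ≠ y → ¬ (G ⊓ H).Adj x y ∧
        finSumFinEquiv (if s(x, y) ∈ G.edgeSet then Sum.inr (d s(x, y)) else Sum.inl (c s(x, y))) =
          finSumFinEquiv (Sum.inr j)) →
        ∀ x ∈ S, ∀ y ∈ S, x ≠ y → ¬ H.Adj x y ∧ d s(x, y) = j := by
      intro S hS x hx y hy hxy
      obtain ⟨h0, h1⟩ := hS x hx y hy hxy
      have h1 := finSumFinEquiv.injective h1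
      split_ifs at h1 with h2
      exact ⟨fun h3 => h0 ⟨h2, h3⟩, Sum.inr.inj h1⟩
    obtain ⟨x, hx, y, hy, hxy⟩ := hd j A B hA hB (key A hA') (key B hB')
    exact hxy (hcon x hx y hy).2

/-- The union of two graphs with such colourings has such a colouring, with larger `h`: colour a
non-edge with the pair of its colours. -/
theorem sideColouring_sup (k l h : ℕ) : ∃ n : ℕ, ∀ (V : Type) (G H : SimpleGraph V),
    SideColouring k h G → SideColouring l h H → SideColouring (k * l) n (G ⊔ H) := by
  classical
  obtain ⟨N0, hN0⟩ := Pool.Agent.T9h70.Bic.kst h 2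
  refine ⟨N0 + 1, fun V G H ⟨c, hc⟩ ⟨d, hd⟩ => ?_⟩
  refine ⟨fun e => finProdFinEquiv (c e, d e), fun i A B hA hB hA' hB' => ?_⟩
  by_contra hcon
  push Not at hcon
  obtain ⟨⟨i1, i2⟩, rfl⟩ := finProdFinEquiv.surjective i
  let eA := A.equivFinOfCardEq hA
  let eB := B.equivFinOfCardEq hB
  have sub : ∀ (K : SimpleGraph V) (m : ℕ) (f : Sym2 V → Fin m) (j : Fin m),
      (∀ x y, ¬ (G ⊔ H).Adj x y → ¬ K.Adj x y) →
      (∀ e, finProdFinEquiv (c e, d e) = finProdFinEquiv (i1, i2) → f e = j) →
      (∀ (i : Fin m) (A B : Finset V), A.card = h → B.card = h →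
        (∀ x ∈ A, ∀ y ∈ A, x ≠ y → ¬ K.Adj x y ∧ f s(x, y) = i) →
        (∀ x ∈ B, ∀ y ∈ B, x ≠ y → ¬ K.Adj x y ∧ f s(x, y) = i) →
        ∃ x ∈ A, ∃ y ∈ B, ¬ K.Adj x y) →
      ¬ ∃ A' B' : Finset (Fin (N0 + 1)), A'.card = h ∧ B'.card = h ∧
        ∀ a ∈ A', ∀ b ∈ B', K.Adj (eA.symm a) (eB.symm b) := by
    rintro K m f j h1 h2 h3 ⟨A', B', hA1, hB1, hAB⟩
    obtain ⟨x, hx, y, hy, hxy⟩ := h3 j (A'.image fun a => (eA.symm a : V))
      (B'.image fun b => (eB.symm b : V))
      (by rw [Finset.card_image_of_injective _ (fun a b hab =>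
            eA.symm.injective (Subtype.ext hab)), hA1])
      (by rw [Finset.card_image_of_injective _ (fun a b hab =>
            eB.symm.injective (Subtype.ext hab)), hB1])
      (by
        intro x hx y hy hxy
        obtain ⟨a, ha, rfl⟩ := Finset.mem_image.1 hx
        obtain ⟨b, hb, rfl⟩ := Finset.mem_image.1 hy
        obtain ⟨h4, h5⟩ := hA' _ (eA.symm a).2 _ (eA.symm b).2 hxy
        exact ⟨h1 _ _ h4, h2 _ h5⟩)
      (by
        intro x hx y hy hxy
        obtain ⟨a, ha, rfl⟩ := Finset.mem_image.1 hx
        obtain ⟨b, hb, rfl⟩ := Finset.mem_image.1 hy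
        obtain ⟨h4, h5⟩ := hB' _ (eB.symm a).2 _ (eB.symm b).2 hxy
        exact ⟨h1 _ _ h4, h2 _ h5⟩)
    obtain ⟨a, ha, rfl⟩ := Finset.mem_image.1 hx
    obtain ⟨b, hb, rfl⟩ := Finset.mem_image.1 hy
    exact hxy (hAB a ha b hb)
  have s1 := hN0 (N0 + 1) (Nat.le_succ _) (fun a b => G.Adj (eA.symm a) (eB.symm b))
    (sub G k c i1 (fun x y h1 h2 => h1 (Or.inl h2))
      (fun e he => (Prod.ext_iff.1 (finProdFinEquiv.injective he)).1) hc)
    (Finset.univ.filter fun p => G.Adj (eA.symm p.1) (eB.symm p.2))
    (fun p hp => (Finset.mem_filter.1 hp).2)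
  have s2 := hN0 (N0 + 1) (Nat.le_succ _) (fun a b => H.Adj (eA.symm a) (eB.symm b))
    (sub H l d i2 (fun x y h1 h2 => h1 (Or.inr h2))
      (fun e he => (Prod.ext_iff.1 (finProdFinEquiv.injective he)).2) hd)
    (Finset.univ.filter fun p => H.Adj (eA.symm p.1) (eB.symm p.2))
    (fun p hp => (Finset.mem_filter.1 hp).2)
  have s3 : (Finset.univ : Finset (Fin (N0 + 1) × Fin (N0 + 1))).card ≤
      (Finset.univ.filter fun p : Fin (N0 + 1) × Fin (N0 + 1) =>
        G.Adj (eA.symm p.1) (eB.symm p.2)).card +
      (Finset.univ.filter fun p : Fin (N0 + 1) × Fin (N0 + 1) =>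
        H.Adj (eA.symm p.1) (eB.symm p.2)).card := by
    refine (Finset.card_le_card ?_).trans (Finset.card_union_le _ _)
    intro p _
    rw [Finset.mem_union, Finset.mem_filter, Finset.mem_filter]
    rcases hcon _ (eA.symm p.1).2 _ (eB.symm p.2).2 with h1 | h1
    · exact Or.inl ⟨Finset.mem_univ _, h1⟩
    · exact Or.inr ⟨Finset.mem_univ _, h1⟩
  rw [Finset.card_univ, Fintype.card_prod, Fintype.card_fin, ← sq] at s3
  omega

/-- Let `F` be a forest and let `Cl` be a class of `F`-free graphs. Then `Cl` is `χ`-bounded, if and only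
if the non-edges of the graphs `G` in `Cl` can be coloured with `k (ω(G))` colours, so that the two
diagonals of every induced 4-cycle get different colours, if and only if they can be coloured with
`k (ω(G))` colours, so that no induced `K_{h,h}`, `h = h (ω(G))`, has both sides monochromatic in the
same colour, for functions `k`, `h`. -/
theorem result (m : ℕ) (F : SimpleGraph (Fin m)) (hF : F.IsAcyclic)
    (Cl : ∀ V : Type, SimpleGraph V → Prop)
    (hCl : ∀ (V : Type) (G : SimpleGraph V), Cl V G → ¬ F.IsIndContained G) :
    List.TFAE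
      [∃ f : ℕ → ℕ, ∀ (V : Type) [Finite V] (G : SimpleGraph V), Cl V G →
        G.chromaticNumber ≤ f G.cliqueNum,
      ∃ k : ℕ → ℕ, ∀ (V : Type) [Finite V] (G : SimpleGraph V), Cl V G →
        SideColouring (k G.cliqueNum) 2 G,
      ∃ k h : ℕ → ℕ, ∀ (V : Type) [Finite V] (G : SimpleGraph V), Cl V G →
        SideColouring (k G.cliqueNum) (h G.cliqueNum) G] := by
  classical
  have h1 : ∀ k h : ℕ, ∃ f : ℕ → ℕ, ∀ (V : Type) [Finite V] (G : SimpleGraph V),
      SideColouring k h G → ¬ F.IsIndContained G → G.chromaticNumber ≤ f G.cliqueNum := by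
    intro k h
    obtain ⟨f, hf⟩ := Pool.Agent.T9h70.Bic.gs_nobic k h m F hF
    refine ⟨f, fun V _ G hG hFG => ?_⟩
    obtain ⟨c, hc⟩ := hG
    let C : Fin k → SimpleGraph V := fun i =>
      { Adj := fun x y => x ≠ y ∧ (¬ G.Adj x y → c s(x, y) ≠ i)
        symm := ⟨fun x y hxy => ⟨hxy.1.symm, fun h => by
          rw [Sym2.eq_swap]
          exact hxy.2 fun h' => h h'.symm⟩⟩
        loopless := ⟨fun x hx => hx.1 rfl⟩ }
    have hC : ∀ i x y, x ≠ y → ¬ (C i).Adj x y → ¬ G.Adj x y ∧ c s(x, y) = i := by
      intro i x y hxy hn
      by_contra hcon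
      refine hn ⟨hxy, fun h1 h2 => hcon ⟨h1, h2⟩⟩
    refine (hf V G C ?_ ?_ hFG).chromaticNumber_le
    · intro i A B hA hB hA' hB'
      exact hc i A B hA hB (fun x hx y hy hxy => hC i x y hxy (hA' x hx y hy hxy))
        fun x hx y hy hxy => hC i x y hxy (hB' x hx y hy hxy)
    · intro x y hxy
      constructor
      · intro h i
        exact ⟨hxy, fun h' => absurd h h'⟩
      · intro h
        by_contra h'
        exact (h (c s(x, y))).2 h' rfl
  tfae_have 1 → 2 := by
    rintro ⟨f, hf⟩
    refine ⟨f, fun V _ G hFG => ?_⟩
    obtain ⟨κ⟩ := SimpleGraph.chromaticNumber_le_iff_colorable.1 (hf V G hFG)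
    refine ⟨Sym2.lift ⟨fun x y => min (κ x) (κ y), fun x y => min_comm _ _⟩, ?_⟩
    intro i A B hA hB hA' hB'
    by_contra hcon
    push Not at hcon
    obtain ⟨x, y, hxy, rfl⟩ := Finset.card_eq_two.1 hA
    obtain ⟨z, w, hzw, rfl⟩ := Finset.card_eq_two.1 hB
    have e1 := (hA' x (by simp) y (by simp) hxy).2
    have e2 := (hB' z (by simp) w (by simp) hzw).2
    simp only [Sym2.lift_mk] at e1 e2
    have n1 := κ.valid (hcon x (by simp) z (by simp))
    have n2 := κ.valid (hcon x (by simp) w (by simp))
    have n3 := κ.valid (hcon y (by simp) z (by simp))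
    have n4 := κ.valid (hcon y (by simp) w (by simp))
    rcases min_choice (κ x) (κ y) with h | h <;> rcases min_choice (κ z) (κ w) with h' | h' <;>
      rw [h] at e1 <;> rw [h'] at e2 <;> rw [← e2] at e1
    · exact n1 e1
    · exact n2 e1
    · exact n3 e1
    · exact n4 e1
  tfae_have 2 → 3 := by
    rintro ⟨k, hk⟩
    exact ⟨k, fun _ => 2, hk⟩
  tfae_have 3 → 1 := by
    rintro ⟨k, h, hkh⟩
    choose f hf using h1
    exact ⟨fun w => f (k w) (h w) w, fun V _ G hG =>
      hf (k G.cliqueNum) (h G.cliqueNum) V G (hkh V G hG) (hCl V G hG)⟩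
  tfae_finish

end Pool.Agent.Results.MP_763321_co.ColouringNonEdges
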