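import Pool.Agent.T9h70.Pt.Main

set_option autoImplicit false

/-!
# The Gyárfás–Sumner conjecture for graphs with interval in-neighbourhoods

Let `G` be a finite graph, and orient its edges (an edge may be oriented in both directions). Suppose
that for every vertex `v` its in-neighbourhood, or its in-neighbourhood together with `v`, becomes an
interval, or the complement of an interval, of one of `k` linear orders of the vertex set when at most
`d` elements are added or removed.

Theorem. For every forest `F` there is a function `f` such that `χ(G) ≤ k (2 d + 1) f(ω(G))` for all such
`F`-free graphs `G`.

Every graph has this property for some `k` and `d`. The case `k = 1`, `d = 0` contains the graphs which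
have an orientation and a linear or cyclic order of the vertices such that all in-neighbourhoods are
intervals. It contains all interval graphs (`nearIntervals_of_interval`) and all line digraphs
(`nearIntervals_of_line`), so for example the shift graphs, which have clique number two, unbounded
chromatic number, and large induced complete bipartite subgraphs. The graphs of degeneracy at most `d`
have the property for `k = 1` (with empty intervals).

Proof. The relation of being one of the exceptions has outdegree at most `d`, so that it can be coloured
with `2 d + 1` colours. Together with the `k` orders this gives a partition of the vertices into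
`k (2 d + 1)` classes, in each of which two vertices `x`, `y` are adjacent if and only if `p x ∈ I y` or
`p y ∈ I x`, where the `p x` are distinct points of a line, and the `I x` are intervals or complements of
intervals. Let `G` be of this kind. We may assume that `F` is a tree with `m` edges. By induction on the
clique number all neighbourhoods have chromatic number at most some `τ`. Let `z` be the vertex with the
smallest `p z`. If `I x` is not an interval then it contains `p z`, so that `x` is `z` or a neighbour of
`z`. So we may also assume that all `I x` are intervals.

1. The blocks of a family of intervals: let `b(s)` be the largest number `k` such that there are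
   `s_0 < … < s_k = s` such that no member of the family contains two consecutive `s_i`. So `b` increases
   by at most one on a member of the family, and if `b(s) = b(t)` then some member contains `s` and `t`.
   For the family of all `I x`, the vertices with their points in one block are in the neighbourhood of
   one vertex, with this vertex. So `τ + 1` colours are enough in the blocks.
2. Vertices with `p x ∈ I x`: adjacent vertices are in the same block or in consecutive blocks, so that
   `2 (τ + 1)` colours are enough. The vertices with empty `I x` are not adjacent. There remain the
   vertices with `p x < I x`, and by symmetry those with `p x > I x`.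
3. Let `p x < I x` for all `x`. Divide the vertices into `2 (τ + 1)` classes by the parity of the block of
   `p x` and the colour in the block. Let `X` be one of the classes. If `x`, `y` in `X` are adjacent then
   `p x` and `p y` are not both in one `I z`. Write `x → y` if `p x ∈ I y`. It follows that all directed
   paths in `X` are induced paths of `G`.
4. All vertices of `X` have level `0`, and `y` has level `j + 1` if there are `N` vertices `x → y` in `X`
   of level `j` with pairwise disjoint intervals `I x`. Suppose that a vertex of `X` has level `m`. Choose
   the vertices of `F` at random, starting with this vertex as the root, the children among the `N`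
   vertices for their parent. If `u`, `v` are nodes of `F` such that none is an ancestor of the other one,
   there are at most `3 N` of the `N ^ 2` choices for which they are equal or adjacent, since the
   intervals are disjoint. So for large `N` some choice is an induced `F`.
5. So the levels are smaller than `m`. Let `Y` be the set of the vertices of `X` of level exactly `j`.
   Consider the blocks of the family of the `I y`, `y ∈ Y`. For `x` in `Y` let `Q(x)` be the block in which
   `I x` starts. If `x → y` in `Y` then `p x` is in the block `Q(y)` or `Q(y) + 1`. All `x` in `Y` with
   `p x` in a given block are in-neighbours of one `y` in `Y` (or there is only one `x`), so there are no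
   `N` of them with disjoint intervals, and `Q(x)` has at most `2 N` values for them. So the digraph of
   the pairs `(Q(y), Q(x))`, `x → y`, has outdegree at most `4 N`, and `8 N + 1` colours are enough to give
   different colours to `x` and `y` with `x → y`, `Q(x) ≠ Q(y)`. If `x → y`, `Q(x) = Q(y)` then `p x` is in
   the block `Q(x)`, and `τ + 2` colours are enough for these pairs by 1.
-/

namespace Pool.Agent.Results.MP_763321_co.IntervalInNeighbourhoods

/-- `I` is an interval of the linear order `L`. -/
def IsInterval {V : Type} (L : LinearOrder V) (I : Set V) : Prop :=
  ∀ x ∈ I, ∀ z ∈ I, ∀ y, L.le x y → L.le y z → y ∈ I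

/-- There are `k` linear orders of the vertices, and an orientation of the edges of `G` (`x ∈ A y` means
that the edge `x y` is directed to `y`; an edge may be directed to both ends), such that every
`A y`, up to at most `d` elements, is an interval or the complement of an interval of one of the
orders. -/
def NearIntervals {V : Type} (G : SimpleGraph V) (k d : ℕ) : Prop :=
  ∃ (L : Fin k → LinearOrder V) (A I : V → Set V),
    (∀ x y, G.Adj x y ↔ x ≠ y ∧ (x ∈ A y ∨ y ∈ A x)) ∧
    (∀ v, (symmDiff (A v) (I v)).ncard ≤ d) ∧
    ∀ v, ∃ i, IsInterval (L i) (I v) ∨ IsInterval (L i) (I v)ᶜ

/-- line digraphs: the vertices are arcs with a tail and a head, and two of them are adjacent if the head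
of one is the tail of the other one -/
theorem nearIntervals_of_line {V : Type} [Finite V] (G : SimpleGraph V) (head tail : V → ℕ)
    (hG : ∀ x y, G.Adj x y ↔ x ≠ y ∧ (head x = tail y ∨ head y = tail x)) :
    NearIntervals G 1 0 := by
  classical
  cases nonempty_fintype V
  let e : V → ℕ := fun v => Fintype.equivFin V v
  have he : Function.Injective e := fun x y h => (Fintype.equivFin V).injective (Fin.ext h)
  let L : LinearOrder V := LinearOrder.lift' (fun v => toLex (head v, e v)) (fun x y h => by
    have := congrArg Prod.snd (toLex.injective h)
    exact he this)
  have hL : ∀ x y, L.le x y → head x ≤ head y := by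
    intro x y h
    have h1 : toLex (head x, e x) ≤ toLex (head y, e y) := h
    rw [Prod.Lex.toLex_le_toLex] at h1
    rcases h1 with h1 | h1
    · exact h1.le
    · exact h1.1.le
  refine ⟨fun _ => L, fun y => {x | head x = tail y}, fun y => {x | head x = tail y}, hG, ?_, ?_⟩
  · intro v
    rw [symmDiff_self]
    simp
  · intro v
    refine ⟨0, Or.inl fun x hx z hz y h1 h2 => ?_⟩
    have h3 := hL _ _ h1
    have h4 := hL _ _ h2
    simp only [Set.mem_ofPred_eq] at hx hz ⊢
    omega

/-- interval graphs -/
theorem nearIntervals_of_interval {V : Type} [Finite V] (G : SimpleGraph V) (l r : V → ℕ)
    (hlr : ∀ v, l v ≤ r v) (hG : ∀ x y, G.Adj x y ↔ x ≠ y ∧ l x ≤ r y ∧ l y ≤ r x) :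
    NearIntervals G 1 0 := by
  classical
  cases nonempty_fintype V
  let e : V → ℕ := fun v => Fintype.equivFin V v
  have he : Function.Injective e := fun x y h => (Fintype.equivFin V).injective (Fin.ext h)
  let L : LinearOrder V := LinearOrder.lift' (fun v => toLex (l v, e v)) (fun x y h => by
    have := congrArg Prod.snd (toLex.injective h)
    exact he this)
  have hL : ∀ x y, L.le x y → l x ≤ l y := by
    intro x y h
    have h1 : toLex (l x, e x) ≤ toLex (l y, e y) := h
    rw [Prod.Lex.toLex_le_toLex] at h1
    rcases h1 with h1 | h1
    · exact h1.le
    · exact h1.1.le
  refine ⟨fun _ => L, fun y => {x | l y ≤ l x ∧ l x ≤ r y}, fun y => {x | l y ≤ l x ∧ l x ≤ r y},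
    ?_, ?_, ?_⟩
  · intro x y
    rw [hG]
    simp only [Set.mem_ofPred_eq]
    have h1 := hlr x
    have h2 := hlr y
    constructor
    · rintro ⟨h3, h4, h5⟩
      refine ⟨h3, ?_⟩
      omega
    · rintro ⟨h3, h4⟩
      refine ⟨h3, ?_⟩
      omega
  · intro v
    rw [symmDiff_self]
    simp
  · intro v
    refine ⟨0, Or.inl fun x hx z hz y h1 h2 => ?_⟩
    have h3 := hL _ _ h1
    have h4 := hL _ _ h2
    simp only [Set.mem_ofPred_eq] at hx hz ⊢
    omega

theorem result (m : ℕ) (F : SimpleGraph (Fin m)) (hF : F.IsAcyclic) :
    ∃ f : ℕ → ℕ, ∀ (k d : ℕ) (V : Type) [Fintype V] (G : SimpleGraph V),
      NearIntervals G k d → ¬ F.IsIndContained G →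
        G.chromaticNumber ≤ (k * (2 * d + 1) * f G.cliqueNum : ℕ) := by
  classical
  obtain ⟨g, hg⟩ := Pool.Agent.T9h70.Pt.gs_nearly m F hF
  refine ⟨g, fun k d V _ G hG hFG => ?_⟩
  obtain ⟨L, A, I, h1, h2, h3⟩ := hG
  choose c hc using h3
  have key : ∀ (M : LinearOrder V) (J : Set V), IsInterval M J →
      @Set.OrdConnected V M.toPreorder J := fun M J hJ =>
    @Set.OrdConnected.mk V M.toPreorder J fun x hx z hz y hy => hJ x hx z hz y hy.1 hy.2
  exact (hg k d V G L A I c (fun v => (hc v).imp (key _ _) (key _ _)) h2 h1 hFG).chromaticNumber_le

end Pool.Agent.Results.MP_763321_co.IntervalInNeighbourhoods
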