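import Pool.Agent.T9h44.GS.Family
import Pool.Agent.H367R3.GSForest

set_option autoImplicit false

/-!
# Graphs without an induced forest are made of large nearly complete pairs

For every forest `F`, every `k` and every `ε > 0` there is `c > 0` such that the following holds for
every finite graph `G` with no induced `F` and no clique on `k` vertices.  Let `Δ` be the maximum
degree and `n` the number of vertices of `G`.  There are pairs `(A i, B i)`, `i < N`, of disjoint
sets of at least `c Δ` vertices such that every vertex of `A i` is adjacent to all but at most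
`ε |B i|` vertices of `B i` and vice versa, every vertex is in at most `1 / c` of the sets
`A i ∪ B i`, and all but at most `ε Δ n` edges of `G` have one end in `A i` and the other in `B i`
for some `i`.

So, up to `ε Δ n` edges, such a graph is a union, with bounded overlap, of nearly complete bipartite
graphs whose two parts have size proportional to `Δ` (the size is at most `Δ / (1 - ε)` by the second
property).  Regular graphs of large degree and girth five show that nothing like this holds for
general graphs without large cliques.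

Proof.  The pairs are found greedily.  Let `H` be the graph of the edges which are not yet covered, and
assume that it has at least `ε Δ n / 2` edges.

1. If `H` has no pair of sets of size `O(Δ)` with `Ω(Δ²)` edges of `H` between them, then for every
   vertex `z` few walks `z x w` of `H` end in a neighbour of `z` (in `G`) or in a vertex with `Ω(Δ)`
   common neighbours with `z`.  So `H` contains a light system for `G`, and the embedding theorem of
   the starting file on arc-transitive graphs gives every tree as induced subgraph.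
2. In a dense spot of `H` the neighbourhoods in `G` have bounded VC dimension.  So a constant
   proportion of one side has nearly the same neighbourhood, and pruning gives a new pair, in which all
   degrees in `H` are proportional to `Δ`.
-/

namespace Pool.Agent.Results.MP_763321_co.NearBicliques

open Pool.Agent.T9h44.GS Pool.Agent.Y394.AT

theorem result (m : ℕ) (F : SimpleGraph (Fin m)) (hF : F.IsAcyclic) (k : ℕ) (ε : ℝ) (hε : 0 < ε) :
    ∃ c : ℝ, 0 < c ∧ ∀ (V : Type) [Fintype V] [DecidableEq V] (G : SimpleGraph V)
      [DecidableRel G.Adj], ¬ F.IsIndContained G → G.CliqueFree k →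
      ∃ (N : ℕ) (A B : Fin N → Finset V),
        (∀ i, Disjoint (A i) (B i) ∧
          c * G.maxDegree ≤ (A i).card ∧ c * G.maxDegree ≤ (B i).card ∧
          (∀ a ∈ A i, (1 - ε) * (B i).card ≤ ((B i).filter (fun b => G.Adj a b)).card) ∧
          (∀ b ∈ B i, (1 - ε) * (A i).card ≤ ((A i).filter (fun a => G.Adj b a)).card)) ∧
        (∀ v, ((Finset.univ.filter (fun i => v ∈ A i ∨ v ∈ B i)).card : ℝ) ≤ 1 / c) ∧
        ((G.edgeFinset.filter (fun e => ¬ ∃ i, ∃ a ∈ A i, ∃ b ∈ B i, e = s(a, b))).card : ℝ) ≤
          ε * G.maxDegree * Fintype.card V := by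
  classical
  obtain ⟨T, hT, ⟨ι0⟩⟩ := Pool.Agent.H367R3.forest_in_tree F hF
  obtain ⟨ε', hε'd⟩ : ∃ ε' : ℝ, ε' = min ε 1 := ⟨_, rfl⟩
  have hε'0 : 0 < ε' := by rw [hε'd]; exact lt_min hε one_pos
  have hε'ε : ε' ≤ ε := by rw [hε'd]; exact min_le_left _ _
  have hε'1 : ε' ≤ 1 := by rw [hε'd]; exact min_le_right _ _
  obtain ⟨c, hc, hc1, hmain⟩ := one_pair m k T hT ε' ε' hε'0 hε'1 hε'0 hε'1
  refine ⟨c, hc, ?_⟩
  intro V _ _ G _ hFG hfree
  have hnb : ∀ v, (nb G v).card = G.degree v := by
    intro v
    rw [← SimpleGraph.card_neighborFinset_eq_degree]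
    congr 1
    ext w
    rw [mem_nb, SimpleGraph.mem_neighborFinset]
  have hdeg : ∀ v, ((nb G v).card : ℝ) ≤ (G.maxDegree : ℝ) := by
    intro v
    rw [hnb]
    exact_mod_cast G.degree_le_maxDegree v
  by_cases hd0 : G.maxDegree = 0
  · refine ⟨0, Fin.elim0, Fin.elim0, fun i => i.elim0, ?_, ?_⟩
    · intro v
      simp only [Finset.univ_eq_empty, Finset.filter_empty, Finset.card_empty, Nat.cast_zero]
      positivity
    · have h1 : G.edgeFinset = ∅ := by
        rw [Finset.eq_empty_iff_forall_notMem]
        intro e
        induction e using Sym2.ind with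
        | _ u v =>
          intro he
          rw [SimpleGraph.mem_edgeFinset, SimpleGraph.mem_edgeSet] at he
          have h2 := G.degree_le_maxDegree u
          rw [hd0] at h2
          have h3 : 0 < G.degree u := by
            rw [← SimpleGraph.card_neighborFinset_eq_degree]
            exact Finset.card_pos.2 ⟨v, (SimpleGraph.mem_neighborFinset _ _ _).2 he⟩
          omega
      rw [h1, hd0]
      simp
  have hd : (0 : ℝ) < G.maxDegree := by exact_mod_cast Nat.pos_of_ne_zero hd0
  have hV : Nonempty V := by
    by_contra hV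
    rw [not_nonempty_iff] at hV
    apply hd0
    exact SimpleGraph.maxDegree_of_isEmpty G
  have hemp : IsEmpty (T ↪g G) := ⟨fun e => hFG ⟨ι0.trans e⟩⟩
  obtain ⟨N, A, B, hAB, hcnt, H', hH', hH's, hcov⟩ := family G
    (ε' * G.maxDegree * Fintype.card V) ε' (c * G.maxDegree) (mul_pos hc hd)
    (fun H hHG hs => hmain V G H G.maxDegree hd hV hHG hdeg (hfree.mono (Nat.le_succ k)) hemp hs)
    _ G le_rfl rfl
  have hdg : ∀ (S : Finset V) (v : V), dg G S v = ((S.filter (fun b => G.Adj v b)).card : ℝ) := by
    intro S v
    rw [dg_eq]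
    congr 2
    ext x
    simp only [Finset.mem_filter]
  refine ⟨N, A, B, ?_, ?_, ?_⟩
  · intro i
    obtain ⟨⟨a, ha⟩, ⟨b, hb⟩, hdisj, hA, hB, hcA, hcB⟩ := hAB i
    refine ⟨hdisj, (hB b hb).trans (dg_le_card _ _ _), (hA a ha).trans (dg_le_card _ _ _), ?_, ?_⟩
    · intro a ha
      have h1 := hcA a ha
      rw [hdg] at h1
      refine le_trans ?_ h1
      apply mul_le_mul_of_nonneg_right _ (Nat.cast_nonneg _)
      linarith
    · intro b hb
      have h1 := hcB b hb
      rw [hdg] at h1
      refine le_trans ?_ h1
      apply mul_le_mul_of_nonneg_right _ (Nat.cast_nonneg _)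
      linarith
  · intro v
    have h0 := (hcnt v).trans (hdeg v)
    have h1 : c * G.maxDegree * ((Finset.univ.filter (fun i => v ∈ A i ∨ v ∈ B i)).card : ℝ) ≤
        G.maxDegree := by
      refine le_trans (le_of_eq ?_) h0
      congr 1
      rw [Finset.card_filter]
      push_cast
      apply Finset.sum_congr rfl
      intro i _
      by_cases hi : v ∈ A i ∨ v ∈ B i
      · rw [if_pos hi, if_pos hi]
      · rw [if_neg hi, if_neg hi]
    rw [le_div_iff₀ hc]
    have h2 : ((Finset.univ.filter (fun i => v ∈ A i ∨ v ∈ B i)).card : ℝ) * c * G.maxDegree ≤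
        1 * G.maxDegree := by
      rw [one_mul]
      refine le_trans (le_of_eq ?_) h1
      ring
    exact le_of_mul_le_mul_right h2 hd
  · have h1 : (G.edgeFinset.filter (fun e => ¬ ∃ i, ∃ a ∈ A i, ∃ b ∈ B i, e = s(a, b))) ⊆
        H'.edgeFinset := by
      intro e
      induction e using Sym2.ind with
      | _ u v =>
        intro he
        rw [Finset.mem_filter, SimpleGraph.mem_edgeFinset, SimpleGraph.mem_edgeSet] at he
        rw [SimpleGraph.mem_edgeFinset, SimpleGraph.mem_edgeSet]
        rcases hcov u v he.1 with h2 | ⟨i, hi⟩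
        · exact h2
        · exfalso
          apply he.2
          rcases hi with ⟨h3, h4⟩ | ⟨h3, h4⟩
          · exact ⟨i, u, h3, v, h4, rfl⟩
          · exact ⟨i, v, h3, u, h4, Sym2.eq_swap⟩
    have h2 : (∑ v, ((nb H' v).card : ℝ)) = 2 * (H'.edgeFinset.card : ℝ) := by
      have h3 := H'.sum_degrees_eq_twice_card_edges
      have h4 : ∀ v, (nb H' v).card = H'.degree v := by
        intro v
        rw [← SimpleGraph.card_neighborFinset_eq_degree]
        congr 1
        ext w
        rw [mem_nb, SimpleGraph.mem_neighborFinset]
      rw [Finset.sum_congr rfl (fun v _ => by rw [h4 v])]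
      exact_mod_cast h3
    have h3 : ((G.edgeFinset.filter (fun e => ¬ ∃ i, ∃ a ∈ A i, ∃ b ∈ B i, e = s(a, b))).card : ℝ) ≤
        H'.edgeFinset.card := by exact_mod_cast Finset.card_le_card h1
    rw [h2] at hH's
    have h4 : ε' * (G.maxDegree : ℝ) * Fintype.card V ≤ ε * G.maxDegree * Fintype.card V := by
      apply mul_le_mul_of_nonneg_right _ (Nat.cast_nonneg _)
      exact mul_le_mul_of_nonneg_right hε'ε hd.le
    have h5 : (0 : ℝ) ≤ H'.edgeFinset.card := Nat.cast_nonneg _
    linarith

end Pool.Agent.Results.MP_763321_co.NearBicliques
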