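import Pool.Agent.T9h70.Ord.Main

set_option autoImplicit false

/-!
# The Gyárfás–Sumner conjecture for graphs with a nearly transitive acyclic orientation

An ordering of the vertices of a graph `G` is the same as an acyclic orientation (every edge is directed
to its larger end). It is transitive if there are no vertices `a < u < w` with edges `a u` and `u w` but
not `a w`. The graphs with a transitive acyclic orientation are the comparability graphs. Call the
orientation `h`-transitive if `G` has no induced subgraph of the following kind: a vertex `a` and two
stable sets `U` and `W` of `h` vertices, `a < U < W`, such that `a` is adjacent to all vertices of `U`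
and every vertex of `U` to every vertex of `W`, but `a` to no vertex of `W` (this is a blow-up of an
induced directed path with three vertices, and an induced `K_{h,h+1}`).

Theorem. For every forest `F` and every `h` the class of the `F`-free graphs which have an `h`-transitive
acyclic orientation is `χ`-bounded.

For `h = 1` these are comparability graphs, which are perfect. If `G` has no induced `K_{h,h}` then every
orientation is `h`-transitive, and this is Rödl's theorem. So the theorem is a common generalisation. It
also contains the graphs with an acyclic orientation such that any two vertices which are not adjacent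
are joined by fewer than `h` directed paths of length two (lemma `not_hasBlowUp_of_paths`), for example
all line digraphs of acyclic digraphs and the shift graphs; such graphs can have clique number two, large
chromatic number and large induced complete bipartite subgraphs. Whether `G` has large induced `K_{n,n}`
is not important: in a counterexample to the conjecture, for every acyclic orientation, there must be
large induced `K_{n,n}` with all edges directed from one side `U` to the other, such that the vertices of
`U` have a common in-neighbour outside.

Proof. We may assume that `F` is a tree with `m` edges, rooted. Let `r = m + 1`. A window is an induced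
increasing path with `r + 1` vertices; `x z` is the window which is obtained from the window `x` by
deleting the first vertex and adding `z` at the end.

1. All windows have level `0`; a window `x` has level `j + 1` if there are `N` pairwise non-adjacent
   vertices `z` such that `x z` is a window of level `j`. Suppose that a window has level `m`. Choose the
   vertices of `F` at random, the children of a node of `F` among the `N` vertices of its window. The
   vertices of a path from the root are not adjacent unless they are consecutive, because of the windows.
   Let `u`, `v` be other nodes, with parents `y ≠ y'`. The probability that `u` and `v` are adjacent, `y`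
   and `v` are not adjacent and `u` and `y'` are not adjacent is small: otherwise the theorem of Kővári,
   Sós and Turán gives, for some windows of `y` and `y'`, a complete pair of stable sets `A`, `B` of `2 h`
   vertices, `A` among the children of `y`, `B` among the children of `y'`, `y` not adjacent to `B` and
   `y'` not adjacent to `A`. Divide `A` and `B` into the `h` smaller and the `h` larger vertices. Then the
   smaller half of `A` is before the larger half of `B`, or the smaller half of `B` is before the larger
   half of `A`; together with `y` or `y'` this is the forbidden subgraph. So for some choice there are no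
   such `u`, `v`, and it follows by induction on the sum of the depths of `u` and `v` that `u` and `v` are
   not adjacent. So the choice is an induced `F`.
2. So no window has level `m`, and by Ramsey's theorem for each window `x` there are boundedly many `z`
   such that `x z` has the same level as `x`.
3. Suppose that `χ(G)` is large. By the usual argument with iterated line digraphs there is an increasing
   path `v_0 … v_(n+1)` such that `v_(b+1)` is never in one of the small sets in 2 which belong to
   subsequences of `v_0 … v_b`, and such that the adjacencies and the levels of all subsequences are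
   invariant under a shift by one. Let `S` be the set of the `l` such that `v_0` and `v_l` are adjacent.
4. Unless there is `l` in `S` such that `2 l, …, r l` are not in `S` (this contradicts 2, applied to the
   windows with constant gaps `l`), `S` has many elements. By Ramsey's theorem there is a large subset
   `Q` of `S` such that it depends only on `j` whether the sums of `j` elements of `Q` are in `S`, say
   for `j` in `J`, and also the levels of the windows with increasing gaps which are such sums; and there
   are no differences of elements of `Q` in `S`, since the clique number is bounded. Let `j ≥ h` be in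
   `J`. If `j + 1` is not in `J`, let `X` be a set of `h` elements of `Q`, `s` the sum of `X` and of `j -
   h` other elements, and `b` one of `h` further elements; then `v_0`, the `v_x`, `x ∈ X`, and the
   `v_(s+b)` are the forbidden subgraph. If `j + 1, j + 2, …` are all in `J`, the partial sums of blocks
   of `j` elements give a large clique. So all members of `J` are smaller than `h`. Let `j` be the
   largest one. Then the sums of `j, 2 j, …, r j` elements are not in `S` except for the first, and the
   windows whose gaps are sums of `j` consecutive elements of `Q` contradict 2.
-/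

namespace Pool.Agent.Results.MP_763321_co.NearlyTransitiveOrientations

/-- There are a vertex `a` and stable sets `U`, `W` of `h` vertices with `a < U < W` such that `a` is
adjacent to all vertices of `U`, every vertex of `U` is adjacent to every vertex of `W`, and `a` is
adjacent to no vertex of `W`. -/
def HasBlowUp {V : Type} [LinearOrder V] (G : SimpleGraph V) (h : ℕ) : Prop :=
  ∃ (a : V) (U W : Finset V), U.card = h ∧ W.card = h ∧
    G.IsIndepSet (U : Set V) ∧ G.IsIndepSet (W : Set V) ∧
    (∀ u ∈ U, a < u ∧ G.Adj a u) ∧ (∀ u ∈ U, ∀ w ∈ W, u < w ∧ G.Adj u w) ∧
    ∀ w ∈ W, ¬ G.Adj a w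

/-- For `h = 1` the condition says that the orientation is transitive. -/
theorem not_hasBlowUp_one {V : Type} [LinearOrder V] (G : SimpleGraph V) :
    ¬ HasBlowUp G 1 ↔ ∀ a u w, a < u → u < w → G.Adj a u → G.Adj u w → G.Adj a w := by
  constructor
  · intro h a u w hau huw h1 h2
    by_contra h3
    refine h ⟨a, {u}, {w}, rfl, rfl, by simp [SimpleGraph.IsIndepSet], by
      simp [SimpleGraph.IsIndepSet], ?_, ?_, ?_⟩
    · intro x hx
      rw [Finset.mem_singleton.1 hx]
      exact ⟨hau, h1⟩
    · intro x hx y hy
      rw [Finset.mem_singleton.1 hx, Finset.mem_singleton.1 hy]
      exact ⟨huw, h2⟩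
    · intro y hy
      rw [Finset.mem_singleton.1 hy]
      exact h3
  · rintro h ⟨a, U, W, hU, hW, -, -, h1, h2, h3⟩
    obtain ⟨u, rfl⟩ := Finset.card_eq_one.1 hU
    obtain ⟨w, rfl⟩ := Finset.card_eq_one.1 hW
    have hu := h1 u (Finset.mem_singleton_self u)
    have hw := h2 u (Finset.mem_singleton_self u) w (Finset.mem_singleton_self w)
    exact h3 w (Finset.mem_singleton_self w) (h a u w hu.1 hw.1 hu.2 hw.2)

/-- The condition holds if any two vertices which are not adjacent are joined by fewer than `h`
increasing paths of length two. -/
theorem not_hasBlowUp_of_paths {V : Type} [Finite V] [LinearOrder V] (G : SimpleGraph V) (h : ℕ)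
    (hG : ∀ a b, a < b → ¬ G.Adj a b →
      {z | a < z ∧ z < b ∧ G.Adj a z ∧ G.Adj z b}.ncard < h) (hh : 1 ≤ h) : ¬ HasBlowUp G h := by
  rintro ⟨a, U, W, hU, hW, -, -, h1, h2, h3⟩
  obtain ⟨w, hw⟩ : W.Nonempty := Finset.card_pos.1 (by omega)
  obtain ⟨u, hu⟩ : U.Nonempty := Finset.card_pos.1 (by omega)
  have h4 := hG a w ((h1 u hu).1.trans (h2 u hu w hw).1) (h3 w hw)
  have h5 : (U : Set V) ⊆ {z | a < z ∧ z < w ∧ G.Adj a z ∧ G.Adj z w} := fun z hz =>
    ⟨(h1 z hz).1, (h2 z hz w hw).1, (h1 z hz).2, (h2 z hz w hw).2⟩
  have h6 := Set.ncard_le_ncard h5 (Set.toFinite _)
  rw [Set.ncard_coe_finset] at h6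
  omega

/-- The condition holds for all orderings of a graph without induced `K_{h,h}`. -/
theorem not_hasBlowUp_of_biclique {V : Type} [LinearOrder V] (G : SimpleGraph V) (h : ℕ)
    (hG : ¬ (completeBipartiteGraph (Fin h) (Fin h)).IsIndContained G) : ¬ HasBlowUp G h := by
  classical
  rintro ⟨a, U, W, hU, hW, hU', hW', -, h2, -⟩
  let eU := U.equivFinOfCardEq hU
  let eW := W.equivFinOfCardEq hW
  have key : ∀ S : Finset V, G.IsIndepSet (S : Set V) → ∀ x ∈ S, ∀ y ∈ S, ¬ G.Adj x y :=
    fun S hS x hx y hy hadj => hS hx hy hadj.ne hadj
  refine hG ⟨⟨⟨Sum.elim (fun j => (eU.symm j : V)) (fun j => (eW.symm j : V)), ?_⟩, ?_⟩⟩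
  · rintro (x | x) (y | y) hxy
    · exact congrArg Sum.inl (eU.symm.injective (Subtype.ext hxy))
    · exact absurd hxy (h2 _ (eU.symm x).2 _ (eW.symm y).2).2.ne
    · exact absurd (Eq.symm hxy) (h2 _ (eU.symm y).2 _ (eW.symm x).2).2.ne
    · exact congrArg Sum.inr (eW.symm.injective (Subtype.ext hxy))
  · rintro (x | x) (y | y)
    · simp only [completeBipartiteGraph_adj, Sum.isLeft_inl, Sum.isRight_inl, Bool.false_eq_true,
        and_false, false_and, or_self, iff_false]
      exact key U hU' _ (eU.symm x).2 _ (eU.symm y).2
    · simp only [completeBipartiteGraph_adj, Sum.isLeft_inl, Sum.isRight_inr, and_self, true_or,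
        iff_true]
      exact (h2 _ (eU.symm x).2 _ (eW.symm y).2).2
    · simp only [completeBipartiteGraph_adj, Sum.isLeft_inl, Sum.isRight_inr, and_self, or_true,
        iff_true]
      exact (h2 _ (eU.symm y).2 _ (eW.symm x).2).2.symm
    · simp only [completeBipartiteGraph_adj, Sum.isLeft_inr, Sum.isRight_inr, Bool.false_eq_true,
        and_false, false_and, or_self, iff_false]
      exact key W hW' _ (eW.symm x).2 _ (eW.symm y).2

theorem result (m : ℕ) (F : SimpleGraph (Fin m)) (hF : F.IsAcyclic) (h : ℕ) :
    ∃ f : ℕ → ℕ, ∀ (V : Type) [Fintype V] [LinearOrder V] (G : SimpleGraph V),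
      ¬ HasBlowUp G h → ¬ F.IsIndContained G → G.chromaticNumber ≤ f G.cliqueNum := by
  classical
  obtain ⟨g, hg⟩ := Pool.Agent.T9h70.Ord.gs_nopat h m F hF
  refine ⟨g, fun V _ _ G hG hFG => ?_⟩
  let eo := Fintype.orderIsoFinOfCardEq V rfl
  let e : V → ℕ := fun v => (eo.symm v : ℕ)
  have he : Function.Injective e := fun a b hab => eo.symm.injective (Fin.ext hab)
  have hlt : ∀ a b, e a < e b → a < b := fun a b hab => eo.symm.lt_iff_lt.1 hab
  refine (hg V G e he ?_ hFG).chromaticNumber_le
  intro a A B hA hB hA' hB' h1 h2
  by_contra hcon
  push Not at hcon
  exact hG ⟨a, A, B, hA, hB, fun x hx y hy hxy => hA' x hx y hy hxy,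
    fun x hx y hy hxy => hB' x hx y hy hxy, fun u hu => ⟨hlt _ _ (h1 u hu).2, (h1 u hu).1⟩,
    fun u hu w hw => ⟨hlt _ _ (h2 u hu w hw).2, (h2 u hu w hw).1⟩, hcon⟩

end Pool.Agent.Results.MP_763321_co.NearlyTransitiveOrientations
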